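import Pool.Agent.Helper40.Nm.Goals

/-! The universal norm. -/

open CategoryTheory AlgebraicGeometry Limits TensorProduct
open Pool.Agent.Helper40.Nm

namespace Pool.Agent.Helper26.Nm

section Norm

variable {R S : Type} [CommRing R] [CommRing S] [Algebra R S] {ι : Type} [Fintype ι]
  [DecidableEq ι] (b : Module.Basis ι R S)

theorem isUnit_of_leftMul {s : S} (h : IsUnit (Algebra.leftMulMatrix b s)) : IsUnit s := by
  obtain ⟨W, hW⟩ := h.exists_right_inv
  refine IsUnit.of_mul_eq_one (b.equivFun.symm (W.mulVec (b.repr 1))) ?_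
  apply b.equivFun.injective
  have h1 := Algebra.leftMulMatrix_mulVec_repr b s (b.equivFun.symm (W.mulVec (b.repr 1)))
  have h2 : (b.repr (b.equivFun.symm (W.mulVec (b.repr 1))) : ι → R) = W.mulVec (b.repr 1) := by
    have := b.equivFun.apply_symm_apply (W.mulVec (b.repr 1))
    rwa [Module.Basis.equivFun_apply] at this
  rw [h2, Matrix.mulVec_mulVec, hW, Matrix.one_mulVec] at h1
  rw [Module.Basis.equivFun_apply, Module.Basis.equivFun_apply, ← h1]

theorem isUnit_leftMul_iff (s : S) : IsUnit (Algebra.leftMulMatrix b s) ↔ IsUnit s :=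
  ⟨isUnit_of_leftMul b, fun h => h.map (Algebra.leftMulMatrix b)⟩

/-- The generic matrix. -/
noncomputable def gm {g : ℕ} (i : Fin g) : Matrix ι ι (MvPolynomial (Fin g × ι) R) :=
  fun l j => ∑ k, MvPolynomial.X (i, k) * MvPolynomial.C (b.repr (b k * b j) l)

theorem eval_gm {g : ℕ} (i : Fin g) (a : Fin g × ι → R) :
    (MvPolynomial.eval a).mapMatrix (gm b i) = Algebra.leftMulMatrix b (∑ k, a (i, k) • b k) := by
  ext l j
  rw [Algebra.leftMulMatrix_eq_repr_mul]
  simp only [RingHom.mapMatrix_apply, Matrix.map_apply, gm, map_sum, map_mul,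
    MvPolynomial.eval_X, MvPolynomial.eval_C, Finset.sum_mul, smul_mul_assoc, map_smul,
    Finsupp.coe_finsetSum, Finset.sum_apply, Finsupp.coe_smul, Pi.smul_apply, smul_eq_mul]

/-- The discriminating polynomial. -/
noncomputable def fpol (g : ℕ) : MvPolynomial (Fin g × ι) R := ∏ i : Fin g, (gm b i).det

theorem isUnit_eval_fpol {g : ℕ} (a : Fin g × ι → R) :
    IsUnit (MvPolynomial.eval a (fpol b g)) ↔ ∀ i, IsUnit (∑ k, a (i, k) • b k) := by
  rw [fpol, map_prod, IsUnit.prod_univ_iff]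
  refine forall_congr' fun i => ?_
  rw [RingHom.map_det, eval_gm, ← Matrix.isUnit_iff_isUnit_det, isUnit_leftMul_iff]

end Norm

section Ten

variable {R M S E : Type} [CommRing R] [Field M] [Algebra R M] [CommRing S] [Field E]
  [Algebra S E] [Algebra R S] [Algebra M E] [Algebra R E] [IsScalarTower R S E]
  [IsScalarTower R M E] {ι : Type} [Fintype ι] (b : Module.Basis ι R S)

theorem mul_rel (k j : ι) : algebraMap S E (b k) * algebraMap S E (b j) =
    ∑ l, algebraMap R M (b.repr (b k * b j) l) • algebraMap S E (b l) := by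
  rw [← map_mul]
  conv_lhs => rw [← b.sum_repr (b k * b j), map_sum]
  refine Finset.sum_congr rfl fun l _ => ?_
  rw [algebraMap_smul, Algebra.smul_def, Algebra.smul_def, map_mul,
    IsScalarTower.algebraMap_apply R S E]

theorem one_rel : (1 : E) = ∑ l, algebraMap R M (b.repr 1 l) • algebraMap S E (b l) := by
  rw [← map_one (algebraMap S E)]
  conv_lhs => rw [← b.sum_repr 1, map_sum]
  refine Finset.sum_congr rfl fun l _ => ?_
  rw [algebraMap_smul, Algebra.smul_def, Algebra.smul_def, map_mul,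
    IsScalarTower.algebraMap_apply R S E]

/-- The generic element. -/
noncomputable def ug {g : ℕ} (C : Type) [CommRing C] [Algebra M C] (X : Fin g × ι → C)
    (i : Fin g) : E ⊗[M] C := ∑ k, algebraMap S E (b k) ⊗ₜ[M] X (i, k)

theorem isUnit_ug [DecidableEq ι] {g : ℕ} (C : Type) [CommRing C] [Algebra M C] (X : Fin g × ι → C)
    (i : Fin g) (L : Matrix ι ι C)
    (hL : ∀ l j, L l j = ∑ k, X (i, k) * algebraMap M C (algebraMap R M (b.repr (b k * b j) l)))
    (hu : IsUnit L) : IsUnit (ug (M := M) (E := E) b C X i) := by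
  obtain ⟨W, hW⟩ := hu.exists_right_inv
  set r : ι → C := fun l => algebraMap M C (algebraMap R M (b.repr 1 l)) with hr
  set w : ι → C := W.mulVec r with hw
  have hLw : ∀ l, ∑ j, L l j * w j = r l := by
    intro l
    have h1 : L.mulVec w = r := by rw [hw, Matrix.mulVec_mulVec, hW, Matrix.one_mulVec]
    exact congrFun h1 l
  refine IsUnit.of_mul_eq_one (∑ j, algebraMap S E (b j) ⊗ₜ[M] w j) ?_
  rw [ug, Finset.sum_mul_sum]
  have h2 : ∀ k j, (algebraMap S E (b k) ⊗ₜ[M] X (i, k)) * (algebraMap S E (b j) ⊗ₜ[M] w j) =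
      ∑ l, algebraMap S E (b l) ⊗ₜ[M]
        (X (i, k) * algebraMap M C (algebraMap R M (b.repr (b k * b j) l)) * w j) := by
    intro k j
    rw [Algebra.TensorProduct.tmul_mul_tmul, mul_rel (M := M), TensorProduct.sum_tmul]
    refine Finset.sum_congr rfl fun l _ => ?_
    rw [TensorProduct.smul_tmul, Algebra.smul_def]
    congr 1
    ring
  simp only [h2]
  have h3 : ∑ k, ∑ j, ∑ l, algebraMap S E (b l) ⊗ₜ[M]
        (X (i, k) * algebraMap M C (algebraMap R M (b.repr (b k * b j) l)) * w j) =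
      ∑ l, algebraMap S E (b l) ⊗ₜ[M] (∑ j, L l j * w j) := by
    have h4 : ∀ l, algebraMap S E (b l) ⊗ₜ[M] (∑ j, L l j * w j) = ∑ k, ∑ j,
        algebraMap S E (b l) ⊗ₜ[M]
          (X (i, k) * algebraMap M C (algebraMap R M (b.repr (b k * b j) l)) * w j) := by
      intro l
      rw [Finset.sum_comm, TensorProduct.tmul_sum]
      refine Finset.sum_congr rfl fun j _ => ?_
      rw [hL, Finset.sum_mul, TensorProduct.tmul_sum]
    simp only [h4]
    rw [Finset.sum_comm (s := (Finset.univ : Finset ι)) (t := (Finset.univ : Finset ι))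
      (f := fun l k => ∑ j, algebraMap S E (b l) ⊗ₜ[M]
          (X (i, k) * algebraMap M C (algebraMap R M (b.repr (b k * b j) l)) * w j))]
    exact Finset.sum_congr rfl fun k _ => Finset.sum_comm
  rw [h3]
  simp only [hLw, hr]
  rw [Algebra.TensorProduct.one_def, one_rel (M := M) (E := E) b, TensorProduct.sum_tmul]
  refine Finset.sum_congr rfl fun l _ => ?_
  rw [TensorProduct.smul_tmul, Algebra.smul_def, mul_one]

end Ten

theorem uni (hpts : PTS) : UNI := by
  intro R M S E B _ _ _ _ _ _ _ _ _ _ _ _ _ _ _ _ _ _ _ _ g Ψ act ι _ b hact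
  classical
  refine ⟨fpol b g, ?_⟩
  set C : Type := Localization.Away (MvPolynomial.map (algebraMap R M) (fpol b g)) with hC
  let ρ : MvPolynomial (Fin g × ι) R →+* C :=
    (algebraMap (MvPolynomial (Fin g × ι) M) C).comp (MvPolynomial.map (algebraMap R M))
  let X : Fin g × ι → C := fun p => algebraMap (MvPolynomial (Fin g × ι) M) C (MvPolynomial.X p)
  have hρf : IsUnit (ρ (fpol b g)) :=
    IsLocalization.Away.algebraMap_isUnit (MvPolynomial.map (algebraMap R M) (fpol b g))
  have hunit : ∀ i, IsUnit (ug (M := M) (E := E) b C X i) := by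
    intro i
    refine isUnit_ug b C X i (ρ.mapMatrix (gm b i)) ?_ ?_
    · intro l j
      simp only [RingHom.mapMatrix_apply, Matrix.map_apply, gm, map_sum, map_mul]
      refine Finset.sum_congr rfl fun k _ => ?_
      congr 1
      · simp [ρ, X]
      · simp only [ρ, RingHom.comp_apply, MvPolynomial.map_C]
        rw [IsScalarTower.algebraMap_apply M (MvPolynomial (Fin g × ι) M) C]
        rfl
    · rw [Matrix.isUnit_iff_isUnit_det, ← RingHom.map_det]
      refine isUnit_of_dvd_unit (map_dvd ρ ?_) hρf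
      exact Finset.dvd_prod_of_mem _ (Finset.mem_univ i)
  choose U hU using hunit
  let T : (E ≃ₐ[M] E) → (E ⊗[M] C →ₐ[M] E ⊗[M] C) := fun γ =>
    Algebra.TensorProduct.map (γ : E →ₐ[M] E) (AlgHom.id M C)
  have hT : ∀ γ δ z, T (γ * δ) z = T γ (T δ z) := by
    intro γ δ z
    induction z using TensorProduct.induction_on with
    | zero => simp
    | tmul x y => rfl
    | add x y hx hy => rw [map_add, hx, hy, map_add, map_add]
  let ψ0 : Multiplicative (Lat g) →* (E ⊗[M] C)ˣ :=
    { toFun := fun x => ∏ i, U i ^ (Multiplicative.toAdd x i)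
      map_one' := by simp
      map_mul' := by
        intro x y
        rw [← Finset.prod_mul_distrib]
        refine Finset.prod_congr rfl fun i _ => ?_
        rw [toAdd_mul, Pi.add_apply, zpow_add] }
  let ψ : Multiplicative (Lat g) →* (E ⊗[M] C)ˣ :=
    { toFun := fun x => ∏ γ : (E ≃ₐ[M] E), Units.map (T γ : E ⊗[M] C →* E ⊗[M] C)
        (ψ0 (Multiplicative.ofAdd (act γ⁻¹ (Multiplicative.toAdd x))))
      map_one' := by simp
      map_mul' := by
        intro x y
        rw [← Finset.prod_mul_distrib]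
        refine Finset.prod_congr rfl fun i _ => ?_
        rw [toAdd_mul, map_add, ofAdd_add, map_mul, map_mul] }
  have hψ : ∀ (γ : E ≃ₐ[M] E) (x : Lat g), Units.map (T γ : E ⊗[M] C →* E ⊗[M] C)
      (ψ (Multiplicative.ofAdd x)) = ψ (Multiplicative.ofAdd (act γ x)) := by
    intro γ x
    show Units.map (T γ : E ⊗[M] C →* E ⊗[M] C) (∏ δ : (E ≃ₐ[M] E),
      Units.map (T δ : E ⊗[M] C →* E ⊗[M] C) (ψ0 (Multiplicative.ofAdd (act δ⁻¹ x)))) =
      ∏ δ : (E ≃ₐ[M] E), Units.map (T δ : E ⊗[M] C →* E ⊗[M] C)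
        (ψ0 (Multiplicative.ofAdd (act δ⁻¹ (act γ x))))
    rw [map_prod]
    refine Fintype.prod_equiv (Equiv.mulLeft γ) _ _ fun δ => ?_
    have h1 : act (γ * δ)⁻¹ (act γ x) = act δ⁻¹ x := by
      show (act (γ * δ)⁻¹ * act γ) x = act δ⁻¹ x
      rw [← map_mul, mul_inv_rev, inv_mul_cancel_right]
    rw [Equiv.coe_mulLeft, h1]
    ext
    exact (hT γ δ _).symm
  obtain ⟨φ, hφ⟩ := hpts M E B g Ψ act hact C ((Units.coeHom _).comp ψ) (by
    intro γ x
    exact congrArg Units.val (hψ γ x))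
  refine ⟨φ, fun a => isUnit_eval_fpol b a, ?_⟩
  intro a e ha he x
  let ev : E ⊗[M] C →ₐ[E] E := Algebra.TensorProduct.lift (AlgHom.id E E)
    ((Algebra.ofId M E).comp e) (fun _ _ => Commute.all _ _)
  have hev : ∀ (p : E) (c : C), ev (p ⊗ₜ c) = p * algebraMap M E (e c) := fun p c => by
    simp [ev, Algebra.ofId_apply]
  have h1 : ∀ z : E ⊗[M] B, evE (e.comp φ) z =
      ev (Algebra.TensorProduct.map (AlgHom.id M E) φ z) := by
    intro z
    induction z using TensorProduct.induction_on with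
    | zero => simp
    | tmul p q =>
      rw [Algebra.TensorProduct.map_tmul, hev]
      simp [evE, Algebra.ofId_apply]
    | add p q hp hq => rw [map_add, hp, hq, map_add, map_add]
  have h2 : ∀ (γ : E ≃ₐ[M] E) (z : E ⊗[M] C), ev (T γ z) = γ (ev z) := by
    intro γ z
    induction z using TensorProduct.induction_on with
    | zero => simp
    | tmul p q =>
      show ev (γ p ⊗ₜ q) = _
      rw [hev, hev, map_mul, AlgEquiv.commutes]
    | add p q hp hq => rw [map_add, map_add, hp, hq, map_add, map_add]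
  have h3 : ∀ i, ev (U i : E ⊗[M] C) = algebraMap S E (∑ k, a (i, k) • b k) := by
    intro i
    rw [hU, ug, map_sum, map_sum]
    refine Finset.sum_congr rfl fun k _ => ?_
    rw [hev, he, ← IsScalarTower.algebraMap_apply, Algebra.smul_def, map_mul,
      ← IsScalarTower.algebraMap_apply, mul_comm]
  have h4 : ∀ y : Lat g, ev (ψ0 (Multiplicative.ofAdd y) : E ⊗[M] C) =
      ∏ i, (algebraMap S E (∑ k, a (i, k) • b k)) ^ (y i) := by
    intro y
    have h5 : ∀ w : (E ⊗[M] C)ˣ, ev (w : E ⊗[M] C) =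
      (Units.map (ev : E ⊗[M] C →* E) w : Eˣ) := fun w => rfl
    rw [h5]
    show ((Units.map (ev : E ⊗[M] C →* E) (∏ i, U i ^ (y i)) : Eˣ) : E) = _
    rw [map_prod, Units.coe_prod]
    refine Finset.prod_congr rfl fun i _ => ?_
    rw [map_zpow, Units.val_zpow_eq_zpow_val, ← h5, h3]
  show evE (e.comp φ) (chi Ψ x) = _
  rw [h1, hφ]
  show ev ((∏ γ : (E ≃ₐ[M] E), Units.map (T γ : E ⊗[M] C →* E ⊗[M] C)
        (ψ0 (Multiplicative.ofAdd (act γ⁻¹ x))) : (E ⊗[M] C)ˣ) : E ⊗[M] C) = _
  rw [Units.coe_prod, map_prod]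
  refine Finset.prod_congr rfl fun γ _ => ?_
  show ev (T γ (ψ0 (Multiplicative.ofAdd (act γ⁻¹ x)) : E ⊗[M] C)) = _
  rw [h2, h4]

end Pool.Agent.Helper26.Nm
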